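import Pool.Agent.H10.Boom

namespace Pool.Agent.Results.MP_80afb3_al.SL3
open Topology

open Classical in
/-- The indicator function of a subgroup, a point of the product space `Γ → Bool`. -/
noncomputable def ind {Γ : Type} [Group Γ] (Δ : Subgroup Γ) : Γ → Bool := fun g => decide (g ∈ Δ)

/-- `Δ` is recurrent in the Chabauty topology under conjugation by every element. -/
def Boomerang {Γ : Type} [Group Γ] (Δ : Subgroup Γ) : Prop :=
  ∀ γ : Γ, ∀ O ∈ 𝓝 (ind Δ), ∃ n ≥ 1, ind (Δ.map (MulAut.conj (γ ^ n)).toMonoidHom) ∈ O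

/-- `SL₃(ℚ)` is an infinite countable boomerang simple group. -/
theorem result : Countable (Matrix.SpecialLinearGroup (Fin 3) ℚ) ∧
    Infinite (Matrix.SpecialLinearGroup (Fin 3) ℚ) ∧
    ∀ Δ : Subgroup (Matrix.SpecialLinearGroup (Fin 3) ℚ), Boomerang Δ ↔ Δ = ⊥ ∨ Δ = ⊤ := by
  classical
  refine ⟨inferInstanceAs (Countable {A : Fin 3 → Fin 3 → ℚ // Matrix.det A = 1}),
    .of_injective (Matrix.SpecialLinearGroup.transvection (by decide : (0 : Fin 3) ≠ 1))
      fun a b h => ?_, fun Δ => ⟨fun h => or_iff_not_imp_left.2 (Pool.Agent.H10.Boom.top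
        fun γ δ hδ => ?_), fun h γ O hO => ⟨1, le_rfl, ?_⟩⟩⟩
  · simpa [Pool.Agent.H10.Boom.mt] using congrArg (Pool.Agent.H10.Boom.m · 0 1) h
  · obtain ⟨n, n1, hn⟩ := h γ⁻¹ ((· δ) ⁻¹' {true}) (((isOpen_discrete _).preimage
      (continuous_apply δ)).mem_nhds (by simp [ind, hδ]))
    simp only [ind, Set.mem_preimage, Set.mem_singleton_iff, decide_eq_true_eq] at hn
    obtain ⟨x, hx, rfl⟩ := hn
    exact ⟨n, by omega, by
      rwa [MulEquiv.coe_toMonoidHom, MulAut.conj_apply, inv_pow, inv_inv, ← mul_assoc,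
        mul_inv_cancel_left, mul_inv_cancel_right]⟩
  · rcases h with rfl | rfl
    · rw [Subgroup.map_bot]; exact mem_of_mem_nhds hO
    · rw [Subgroup.map_top_of_surjective _ (MulAut.conj _).surjective]; exact mem_of_mem_nhds hO

end Pool.Agent.Results.MP_80afb3_al.SL3
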